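import Mathlib

/-! # Self-duality of `F_p((t))`, and subgroups of `F_p((t)) ^ m` (helper52) -/

set_option autoImplicit false

namespace Pool.Agent.Q52.DK

open Function

variable {p : ℕ} [Fact p.Prime]

/-- all coefficients below `r` vanish -/
def Low {m : ℕ} (r : ℤ) (x : Fin m → LaurentSeries (ZMod p)) : Prop :=
  ∀ k, ∀ n < r, (x k).coeff n = 0

/-- the pairing: the constant coefficient of `∑ b_k a_k` -/
noncomputable def pr {m : ℕ} (b a : Fin m → LaurentSeries (ZMod p)) : ZMod p :=
  (∑ k, b k * a k).coeff 0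

theorem coeff_sum' {ι : Type*} (s : Finset ι) (f : ι → LaurentSeries (ZMod p)) (n : ℤ) :
    (∑ i ∈ s, f i).coeff n = ∑ i ∈ s, (f i).coeff n := by
  classical
  induction s using Finset.induction_on with
  | empty => simp
  | insert a s ha ih => rw [Finset.sum_insert ha, Finset.sum_insert ha, HahnSeries.coeff_add, ih]

theorem pr_eq {m : ℕ} (b a : Fin m → LaurentSeries (ZMod p)) :
    pr b a = ∑ k, (b k * a k).coeff 0 := coeff_sum' _ _ _

theorem pr_add_right {m : ℕ} (b a a' : Fin m → LaurentSeries (ZMod p)) :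
    pr b (a + a') = pr b a + pr b a' := by
  simp only [pr_eq, Pi.add_apply, mul_add, HahnSeries.coeff_add, Finset.sum_add_distrib]

theorem pr_add_left {m : ℕ} (b b' a : Fin m → LaurentSeries (ZMod p)) :
    pr (b + b') a = pr b a + pr b' a := by
  simp only [pr_eq, Pi.add_apply, add_mul, HahnSeries.coeff_add, Finset.sum_add_distrib]

theorem pr_zero_right {m : ℕ} (b : Fin m → LaurentSeries (ZMod p)) : pr b 0 = 0 := by
  simp [pr_eq]

theorem pr_zero_left {m : ℕ} (a : Fin m → LaurentSeries (ZMod p)) : pr 0 a = 0 := by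
  simp [pr_eq]

theorem pr_neg_right {m : ℕ} (b a : Fin m → LaurentSeries (ZMod p)) : pr b (-a) = - pr b a := by
  have h := pr_add_right b a (-a)
  rw [add_neg_cancel, pr_zero_right] at h
  exact (neg_eq_of_add_eq_zero_right h.symm).symm

theorem pr_neg_left {m : ℕ} (b a : Fin m → LaurentSeries (ZMod p)) : pr (-b) a = - pr b a := by
  have h := pr_add_left b (-b) a
  rw [add_neg_cancel, pr_zero_left] at h
  exact (neg_eq_of_add_eq_zero_right h.symm).symm

/-- the constant coefficient of a product vanishes if one of the factors of each term does -/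
theorem coeff_mul_zero (b a : LaurentSeries (ZMod p)) (n : ℤ)
    (h : ∀ i j, i + j = n → b.coeff i = 0 ∨ a.coeff j = 0) : (b * a).coeff n = 0 := by
  rw [HahnSeries.coeff_mul]
  refine Finset.sum_eq_zero fun ij hij => ?_
  rw [Finset.mem_antidiagonal] at hij
  rcases h ij.1 ij.2 hij.2.2 with h1 | h1
  · rw [h1, zero_mul]
  · rw [h1, mul_zero]

theorem mul_single_coeff (b : LaurentSeries (ZMod p)) (n : ℤ) (c : ZMod p) :
    (b * HahnSeries.single n c).coeff 0 = b.coeff (-n) * c := by
  have h := HahnSeries.coeff_mul_single_add (r := c) (x := b) (a := -n) (b := n)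
  rwa [neg_add_cancel] at h

/-- a bound below for the support -/
theorem exists_low (x : LaurentSeries (ZMod p)) : ∃ r : ℤ, ∀ n < r, x.coeff n = 0 := by
  by_cases hx : x = 0
  · exact ⟨0, fun n _ => by rw [hx]; rfl⟩
  · exact ⟨x.order, fun n hn => HahnSeries.coeff_eq_zero_of_lt_order hn⟩

/-- nondegeneracy -/
theorem eq_zero_of_pr {m : ℕ} (b : Fin m → LaurentSeries (ZMod p)) (h : ∀ a, pr b a = 0) :
    b = 0 := by
  classical
  funext k
  ext n
  have h1 := h (Pi.single k (HahnSeries.single (-n) 1))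
  rw [pr_eq, Finset.sum_eq_single k] at h1
  · rw [Pi.single_eq_same, mul_single_coeff, neg_neg, mul_one] at h1
    rw [h1]
    rfl
  · intro j _ hj
    rw [Pi.single_eq_of_ne hj, mul_zero]
    rfl
  · intro hk
    exact absurd (Finset.mem_univ k) hk

/-- every functional that vanishes on `t ^ r O` is given by an element -/
theorem exists_rep (l : LaurentSeries (ZMod p) →ₗ[ZMod p] ZMod p) (r : ℤ)
    (hl : ∀ x : LaurentSeries (ZMod p), (∀ n < r, x.coeff n = 0) → l x = 0) :
    ∃ b : LaurentSeries (ZMod p), ∀ x, l x = (b * x).coeff 0 := by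
  classical
  have hb : ∀ n : ℤ, n < 1 - r → l (HahnSeries.single (-n) 1) = 0 := by
    intro n hn
    refine hl _ fun k hk => ?_
    rw [HahnSeries.coeff_single_of_ne]
    omega
  let b : LaurentSeries (ZMod p) :=
    { coeff := fun n => l (HahnSeries.single (-n) 1)
      isPWO_support' := by
        refine Set.IsWF.isPWO ?_
        refine BddBelow.wellFoundedOn_lt ⟨1 - r, fun n hn => ?_⟩
        by_contra h
        exact hn (hb n (by omega)) }
  have hbc : ∀ n, b.coeff n = l (HahnSeries.single (-n) 1) := fun n => rfl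
  refine ⟨b, fun x => ?_⟩
  obtain ⟨s, hs⟩ := exists_low x
  set y : LaurentSeries (ZMod p) := ∑ j ∈ Finset.Ico s r, HahnSeries.single j (x.coeff j) with hy
  have hyc : ∀ n, y.coeff n = if n ∈ Finset.Ico s r then x.coeff n else 0 := by
    intro n
    rw [hy, coeff_sum']
    by_cases hn : n ∈ Finset.Ico s r
    · rw [if_pos hn, Finset.sum_eq_single n]
      · rw [HahnSeries.coeff_single_same]
      · intro j _ hj
        rw [HahnSeries.coeff_single_of_ne hj.symm]
      · intro h
        exact absurd hn h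
    · rw [if_neg hn]
      refine Finset.sum_eq_zero fun j hj => ?_
      rw [HahnSeries.coeff_single_of_ne]
      rintro rfl
      exact hn hj
  have hxy : ∀ n < r, (x - y).coeff n = 0 := by
    intro n hn
    rw [HahnSeries.coeff_sub, hyc]
    by_cases h : s ≤ n
    · rw [if_pos (Finset.mem_Ico.2 ⟨h, hn⟩), sub_self]
    · rw [if_neg (fun h' => h (Finset.mem_Ico.1 h').1), hs n (by omega), sub_zero]
  have h1 : l (x - y) = 0 := hl _ hxy
  have h2 : (b * (x - y)).coeff 0 = 0 := by
    refine coeff_mul_zero _ _ _ fun i j hij => ?_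
    by_cases h : j < r
    · exact Or.inr (hxy j h)
    · left
      rw [hbc, hb i (by omega)]
  have h3 : l y = (b * y).coeff 0 := by
    rw [hy, map_sum, Finset.mul_sum, coeff_sum']
    refine Finset.sum_congr rfl fun j _ => ?_
    rw [mul_single_coeff, hbc, neg_neg]
    have h4 : (HahnSeries.single j (x.coeff j) : LaurentSeries (ZMod p)) =
        x.coeff j • HahnSeries.single j 1 := by
      ext n
      rw [HahnSeries.coeff_smul]
      by_cases hn : n = j
      · rw [hn, HahnSeries.coeff_single_same, HahnSeries.coeff_single_same, smul_eq_mul, mul_one]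
      · rw [HahnSeries.coeff_single_of_ne hn, HahnSeries.coeff_single_of_ne hn, smul_zero]
    rw [h4, map_smul, smul_eq_mul, mul_comm]
  have h5 : x = (x - y) + y := by ring
  rw [h5, map_add, mul_add, HahnSeries.coeff_add, h1, h2, h3]

theorem sep_gen {E : Type} [AddCommGroup E] [Module (ZMod p) E] (U : AddSubgroup E) (x : E)
    (hx : x ∉ U) : ∃ f : E →ₗ[ZMod p] ZMod p, f x ≠ 0 ∧ ∀ u ∈ U, f u = 0 := by
  have hx' : x ∉ AddSubgroup.toZModSubmodule p U := hx
  obtain ⟨f, hf1, hf2⟩ := Submodule.exists_le_ker_of_notMem hx'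
  exact ⟨f, hf1, fun u hu => LinearMap.mem_ker.1 (hf2 (show u ∈ AddSubgroup.toZModSubmodule p U from hu))⟩

/-- separation of a point from an open subgroup -/
theorem exists_sep {m : ℕ} (U : AddSubgroup (Fin m → LaurentSeries (ZMod p))) (r : ℤ)
    (hU : ∀ x, Low r x → x ∈ U) (x : Fin m → LaurentSeries (ZMod p)) (hx : x ∉ U) :
    ∃ b : Fin m → LaurentSeries (ZMod p), (∀ u ∈ U, pr b u = 0) ∧ pr b x ≠ 0 := by
  classical
  obtain ⟨f, hf1, hf⟩ := sep_gen (p := p) (E := Fin m → LaurentSeries (ZMod p)) U x hx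
  have hrep : ∀ k : Fin m, ∃ b : LaurentSeries (ZMod p), ∀ y,
      (f ∘ₗ LinearMap.single (ZMod p) (fun _ : Fin m => LaurentSeries (ZMod p)) k) y =
        (b * y).coeff 0 := by
    intro k
    refine exists_rep _ r fun y hy => ?_
    show f (LinearMap.single (ZMod p) (fun _ : Fin m => LaurentSeries (ZMod p)) k y) = 0
    refine hf _ (hU _ fun j n hn => ?_)
    rw [LinearMap.coe_single]
    by_cases hj : j = k
    · subst hj
      rw [Pi.single_eq_same]
      exact hy n hn
    · rw [Pi.single_eq_of_ne hj]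
      rfl
  choose b hb using hrep
  have hfb : ∀ y, f y = pr b y := by
    intro y
    rw [pr_eq]
    conv_lhs => rw [← LinearMap.sum_single_apply (φ := fun _ : Fin m => LaurentSeries (ZMod p)) y]
    rw [map_sum]
    exact Finset.sum_congr rfl fun k _ => hb k (y k)
  exact ⟨b, fun u hu => by rw [← hfb]; exact hf u hu, by rw [← hfb]; exact hf1⟩

/-- the annihilator of a finite set has small index -/
theorem index_le {m : ℕ} (B : Finset (Fin m → LaurentSeries (ZMod p))) :
    ∃ H : AddSubgroup (Fin m → LaurentSeries (ZMod p)), (∀ x, x ∈ H ↔ ∀ b ∈ B, pr b x = 0) ∧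
      H.index ≠ 0 ∧ H.index ≤ p ^ B.card ∧ ∃ r : ℤ, ∀ x, Low r x → x ∈ H := by
  classical
  let Φ : (Fin m → LaurentSeries (ZMod p)) →+ (B → ZMod p) :=
    { toFun := fun x b => pr b.1 x
      map_zero' := by funext b; exact pr_zero_right _
      map_add' := fun x y => by funext b; exact pr_add_right _ _ _ }
  have hcard : Nat.card (B → ZMod p) = p ^ B.card := by
    rw [Nat.card_eq_fintype_card, Fintype.card_fun, ZMod.card, Fintype.card_coe]
  have hidx : Φ.ker.index = Nat.card Φ.range := AddSubgroup.index_ker Φ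
  have hfin : Finite Φ.range := inferInstance
  refine ⟨Φ.ker, fun x => ?_, ?_, ?_, ?_⟩
  · rw [AddMonoidHom.mem_ker]
    constructor
    · intro h b hb
      exact congrFun h ⟨b, hb⟩
    · intro h
      funext b
      exact h b.1 b.2
  · rw [hidx]
    exact Nat.card_pos.ne'
  · rw [hidx, ← hcard]
    exact Nat.card_le_card_of_injective (fun x : Φ.range => x.1) Subtype.val_injective
  · have h1 : ∀ (b : Fin m → LaurentSeries (ZMod p)), ∃ r : ℤ, ∀ k, ∀ n < r,
        (b k).coeff n = 0 := by
      intro b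
      choose r hr using fun k => exists_low (b k)
      obtain ⟨s, hs⟩ : ∃ s : ℤ, ∀ k, s ≤ r k := by
        by_cases hm : Nonempty (Fin m)
        · obtain ⟨k, hk⟩ := Finite.exists_min r
          exact ⟨r k, hk⟩
        · exact ⟨0, fun k => absurd ⟨k⟩ hm⟩
      exact ⟨s, fun k n hn => hr k n (hn.trans_le (hs k))⟩
    choose r hr using h1
    obtain ⟨s, hs⟩ : ∃ s : ℤ, ∀ b ∈ B, 1 - r b ≤ s := by
      obtain ⟨s, hs⟩ := (B.image fun b => 1 - r b).bddAbove
      exact ⟨s, fun b hb => hs (by simpa using ⟨b, hb, rfl⟩)⟩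
    refine ⟨s, fun x hx => ?_⟩
    rw [AddMonoidHom.mem_ker]
    funext b
    show pr b.1 x = 0
    rw [pr_eq]
    refine Finset.sum_eq_zero fun k _ => coeff_mul_zero _ _ _ fun i j hij => ?_
    have h2 := hs b.1 b.2
    by_cases h : i < r b.1
    · exact Or.inl (hr b.1 k i h)
    · right
      exact hx k j (by omega)

/-- the annihilator of a set, as a subgroup -/
theorem pr_closure {m : ℕ} (D : Set (Fin m → LaurentSeries (ZMod p)))
    (b : Fin m → LaurentSeries (ZMod p)) (h : ∀ a ∈ D, pr b a = 0) :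
    ∀ a ∈ AddSubgroup.closure D, pr b a = 0 := by
  intro a ha
  induction ha using AddSubgroup.closure_induction with
  | mem x hx => exact h x hx
  | zero => exact pr_zero_right b
  | add x y _ _ hx hy => rw [pr_add_right, hx, hy, add_zero]
  | neg x _ hx => rw [pr_neg_right, hx, neg_zero]

/-- if the group generated by `D` is relatively dense then its annihilator is discrete -/
theorem perp_isolated {m : ℕ} (D : Set (Fin m → LaurentSeries (ZMod p))) (r : ℤ)
    (hD : ∀ x, ∃ y ∈ AddSubgroup.closure D, Low r (x - y))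
    (b : Fin m → LaurentSeries (ZMod p)) (h : ∀ a ∈ D, pr b a = 0) (hb : Low (1 - r) b) :
    b = 0 := by
  refine eq_zero_of_pr b fun x => ?_
  obtain ⟨y, hy, hxy⟩ := hD x
  have h1 : x = y + (x - y) := by ring
  rw [h1, pr_add_right, pr_closure D b h y hy, zero_add, pr_eq]
  refine Finset.sum_eq_zero fun k _ => coeff_mul_zero _ _ _ fun i j hij => ?_
  by_cases hi : i < 1 - r
  · exact Or.inl (hb k i hi)
  · exact Or.inr (hxy k j (by omega))

/-- density of the group generated by `D` in the annihilator of the annihilator -/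
theorem dense_biperp {m : ℕ} (D : Set (Fin m → LaurentSeries (ZMod p)))
    (x : Fin m → LaurentSeries (ZMod p))
    (hx : ∀ b, (∀ a ∈ D, pr b a = 0) → pr b x = 0) (r : ℤ) :
    ∃ y ∈ AddSubgroup.closure D, Low r (x - y) := by
  classical
  let L : AddSubgroup (Fin m → LaurentSeries (ZMod p)) :=
    { carrier := {x | Low r x}
      zero_mem' := fun k n _ => rfl
      add_mem' := fun {x y} hx hy k n hn => by
        rw [Pi.add_apply, HahnSeries.coeff_add, hx k n hn, hy k n hn, add_zero]
      neg_mem' := fun {x} hx k n hn => by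
        rw [Pi.neg_apply, HahnSeries.coeff_neg, hx k n hn, neg_zero] }
  by_contra hcon
  have hU : x ∉ AddSubgroup.closure D ⊔ L := by
    intro h
    obtain ⟨y, hy, z, hz, hyz⟩ := AddSubgroup.mem_sup.1 h
    refine hcon ⟨y, hy, ?_⟩
    rw [← hyz, add_sub_cancel_left]
    exact hz
  obtain ⟨b, hb1, hb2⟩ := exists_sep (AddSubgroup.closure D ⊔ L) r
    (fun y hy => AddSubgroup.mem_sup_right hy) x hU
  exact hb2 (hx b fun a ha => hb1 a (AddSubgroup.mem_sup_left (AddSubgroup.subset_closure ha)))

end Pool.Agent.Q52.DK
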