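import Pool.Agent.Q318.FT.Fin
import Pool.Agent.Y383.UF.FML
import Pool.Agent.Q52.DK.Dual

/-! # The annihilator of a definable set is definable (helper52) -/

set_option autoImplicit false

namespace Pool.Agent.Q52.DK

open Function
open Pool.Agent.Y924.EL
open Pool.Agent.Y924.UF
open Pool.Agent.Q318.FT

section

variable {K : Type} [CommRing K] {O : Set K}

theorem isDef_HH (p : ℕ) {i j : ℕ} (hij : i ≠ j) :
    IsDef O {w : ℕ → K | HH (w i) p (w j)} := by
  have h0 : IsDef O {w : ℕ → K | HH (w 64) p (w 20)} :=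
    ⟨HF p, fun w => Pool.Agent.Y383.UF.sat_HF O p w⟩
  set e1 : Equiv.Perm ℕ := Equiv.swap 64 i with he1
  set e2 : Equiv.Perm ℕ := Equiv.swap (e1 20) j with he2
  have h9 : e1 64 = i := Equiv.swap_apply_left 64 i
  have h5 : e1 20 ≠ i := by
    intro h
    rw [← h9] at h
    exact absurd (e1.injective h) (by norm_num)
  have h1 : (e2 * e1) 64 = i := by
    show e2 (e1 64) = i
    rw [h9]
    exact Equiv.swap_apply_of_ne_of_ne (fun h => h5 h.symm) hij
  have h2 : (e2 * e1) 20 = j := by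
    show e2 (e1 20) = j
    exact Equiv.swap_apply_left _ _
  have h3 := h0.ren (σ := (e2 * e1 : Equiv.Perm ℕ)) (e2 * e1 : Equiv.Perm ℕ).injective
  have h4 : {w : ℕ → K | w ∘ (e2 * e1 : Equiv.Perm ℕ) ∈ {w : ℕ → K | HH (w 64) p (w 20)}} =
      {w : ℕ → K | HH (w i) p (w j)} := by
    ext w
    show HH (w ((e2 * e1 : Equiv.Perm ℕ) 64)) p (w ((e2 * e1 : Equiv.Perm ℕ) 20)) ↔ _
    rw [h1, h2]
    rfl
  rw [h4] at h3
  exact h3

/-- the renaming: points at `m + 1, ..., 2 m`, parameters at `4 m + 2 + j` -/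
def sh (m i : ℕ) : ℕ := if i < m then m + 1 + i else 4 * m + 2 + i

theorem sh_inj (m : ℕ) : Injective (sh m) := by
  intro i j h
  unfold sh at h
  split_ifs at h <;> omega

/-- there is a point of the set at which the form is not `0` -/
def Bad (p m : ℕ) (D : Set (ℕ → K)) : Set (ℕ → K) :=
  {w | ∃ w' : ℕ → K, (∀ i, i ∉ Finset.Ico (m + 1) (4 * m + 2) → w' i = w i) ∧
    w' ∈ {w : ℕ → K | w ∈ {w : ℕ → K | w ∘ sh m ∈ D} ∧
      w ∈ {w : ℕ → K | w ∈ {w : ℕ → K | ∀ k ∈ Finset.range m,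
          w ∈ {w : ℕ → K | w k * w (m + 1 + k) = w (2 * m + 1 + k)}} ∧
        w ∈ {w : ℕ → K | w ∈ {w : ℕ → K | ∀ k ∈ Finset.range m,
            w ∈ {w : ℕ → K | w (3 * m + 1 + k) + w (2 * m + 1 + k) = w (3 * m + 1 + k + 1)}} ∧
          w ∈ {w : ℕ → K | w ∈ {w : ℕ → K | w (3 * m + 1) + w (3 * m + 1) = w (3 * m + 1)} ∧
            w ∈ {w : ℕ → K | w ∉ {w : ℕ → K | HH (w m) p (w (4 * m + 1))}}}}}}}

theorem isDef_Bad (p m : ℕ) {D : Set (ℕ → K)} (hD : IsDef O D) : IsDef O (Bad p m D) :=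
  ((hD.ren (sh_inj m)).inter ((isDef_all _ _ fun k _ => isDef_mul k (m + 1 + k)
    (2 * m + 1 + k)).inter ((isDef_all _ _ fun k _ => isDef_add (3 * m + 1 + k) (2 * m + 1 + k)
      (3 * m + 1 + k + 1)).inter ((isDef_add (3 * m + 1) (3 * m + 1) (3 * m + 1)).inter
        (isDef_HH p (i := m) (j := 4 * m + 1) (by omega)).compl)))).exB _

end

variable {p : ℕ} [Fact p.Prime]

/-- the parameters for the annihilator -/
noncomputable def par (p : ℕ) (m : ℕ) (v : ℕ → LaurentSeries (ZMod p)) (i : ℕ) :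
    LaurentSeries (ZMod p) :=
  if i = m then HahnSeries.single (1 : ℤ) (1 : ZMod p) else v (i - (4 * m + 2))

theorem mem_Bad (hRES : S_RES) {P : Set (LaurentSeries (ZMod p))} (φ : Fm) (m : ℕ)
    (v : ℕ → LaurentSeries (ZMod p)) (D : Set (Fin m → LaurentSeries (ZMod p)))
    (hD : ∀ a, Sat P φ (pt m a v) ↔ a ∈ D) (b : Fin m → LaurentSeries (ZMod p)) :
    pt m b (par p m v) ∈ Bad p m {w | Sat P φ w} ↔ ∃ a ∈ D, pr b a ≠ 0 := by
  classical
  have hb : ∀ k : Fin m, pt m b (par p m v) k = b k := fun k => pt_lt m b _ k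
  have ht : pt m b (par p m v) m = HahnSeries.single (1 : ℤ) (1 : ZMod p) := by
    rw [pt_ge m b _ le_rfl, par, if_pos rfl]
  have hv : ∀ j, m ≤ j → pt m b (par p m v) (4 * m + 2 + j) = v j := by
    intro j hj
    rw [pt_ge m b _ (by omega), par, if_neg (by omega)]
    congr 1
    omega
  have hsum : ∀ a : Fin m → LaurentSeries (ZMod p), ∀ f : ℕ → LaurentSeries (ZMod p),
      (∀ k : Fin m, f k = b k * a k) → pr b a = (∑ k ∈ Finset.range m, f k).coeff 0 := by
    intro a f hf
    rw [pr, ← Fin.sum_univ_eq_sum_range]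
    congr 1
    exact Finset.sum_congr rfl fun k _ => (hf k).symm
  constructor
  · rintro ⟨w', hw', h1, h2, h3, h4, h5⟩
    have h1' : Sat P φ (w' ∘ sh m) := h1
    have h2' : ∀ k < m, w' k * w' (m + 1 + k) = w' (2 * m + 1 + k) :=
      fun k hk => h2 k (Finset.mem_range.2 hk)
    have h3' : ∀ k < m, w' (3 * m + 1 + k) + w' (2 * m + 1 + k) = w' (3 * m + 1 + k + 1) :=
      fun k hk => h3 k (Finset.mem_range.2 hk)
    have h4' : w' (3 * m + 1) = 0 := by
      have h : w' (3 * m + 1) + w' (3 * m + 1) = w' (3 * m + 1) := h4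
      simpa using h
    have h5' : ¬ HH (w' m) p (w' (4 * m + 1)) := h5
    rw [hw' m (by simp), ht, hRES] at h5'
    refine ⟨fun k => w' (m + 1 + k), ?_, ?_⟩
    · rw [← hD]
      have h6 : w' ∘ sh m = pt m (fun k : Fin m => w' (m + 1 + k)) v := by
        funext i
        show w' (sh m i) = _
        by_cases hi : i < m
        · rw [sh, if_pos hi]
          exact (pt_lt m (fun k : Fin m => w' (m + 1 + k)) v ⟨i, hi⟩).symm
        · rw [sh, if_neg hi, pt_ge m _ v (by omega), hw' _ (by simp), hv i (by omega)]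
      rwa [h6] at h1'
    · have h7 : ∀ n ≤ m, w' (3 * m + 1 + n) = ∑ k ∈ Finset.range n, w' k * w' (m + 1 + k) := by
        intro n
        induction n with
        | zero => intro _; simpa using h4'
        | succ n ih =>
          intro hn
          rw [Finset.sum_range_succ, ← ih (by omega), h2' n (by omega)]
          exact (h3' n (by omega)).symm
      have h8 := h7 m le_rfl
      rw [show 3 * m + 1 + m = 4 * m + 1 by omega] at h8
      rw [hsum _ (fun k => w' k * w' (m + 1 + k)) fun k => ?_, ← h8]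
      · exact h5'
      · show w' k * w' (m + 1 + k) = b k * w' (m + 1 + k)
        rw [hw' k (by simp), hb k]
  · rintro ⟨a, ha, hab⟩
    set aa : ℕ → LaurentSeries (ZMod p) := fun k => if h : k < m then a ⟨k, h⟩ else 0 with haa
    set W := pt m b (par p m v) with hW
    have haak : ∀ k : Fin m, aa k = a k := fun k => by
      rw [haa]
      simp
    set w' : ℕ → LaurentSeries (ZMod p) := fun i =>
      if i ≤ m then W i else if i < 2 * m + 1 then aa (i - (m + 1))
        else if i < 3 * m + 1 then W (i - (2 * m + 1)) * aa (i - (2 * m + 1))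
        else if i < 4 * m + 2 then ∑ k ∈ Finset.range (i - (3 * m + 1)), W k * aa k
        else W i with hw'
    have e1 : ∀ k < m, w' k = W k := fun k hk => by rw [hw']; simp only; rw [if_pos (by omega)]
    have e0 : w' m = W m := by rw [hw']; simp only; rw [if_pos le_rfl]
    have e2 : ∀ k < m, w' (m + 1 + k) = aa k := fun k hk => by
      rw [hw']
      simp only
      rw [if_neg (by omega), if_pos (by omega)]
      congr 1
      omega
    have e3 : ∀ k < m, w' (2 * m + 1 + k) = W k * aa k := fun k hk => by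
      rw [hw']
      simp only
      rw [if_neg (by omega), if_neg (by omega), if_pos (by omega),
        show 2 * m + 1 + k - (2 * m + 1) = k by omega]
    have e4 : ∀ k ≤ m, w' (3 * m + 1 + k) = ∑ j ∈ Finset.range k, W j * aa j := fun k hk => by
      rw [hw']
      simp only
      rw [if_neg (by omega), if_neg (by omega), if_neg (by omega), if_pos (by omega),
        show 3 * m + 1 + k - (3 * m + 1) = k by omega]
    have e5 : ∀ i, 4 * m + 2 ≤ i → w' i = W i := fun i hi => by
      rw [hw']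
      simp only
      rw [if_neg (by omega), if_neg (by omega), if_neg (by omega), if_neg (by omega)]
    refine ⟨w', fun i hi => ?_, ?_, ?_, ?_, ?_, ?_⟩
    · rw [Finset.mem_Ico, not_and_or] at hi
      rcases hi with hi | hi
      · rcases Nat.lt_or_ge i m with h | h
        · exact e1 i h
        · rw [show i = m by omega]
          exact e0
      · exact e5 i (by omega)
    · show Sat P φ (w' ∘ sh m)
      have h6 : w' ∘ sh m = pt m a v := by
        funext i
        show w' (sh m i) = _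
        by_cases hi : i < m
        · rw [sh, if_pos hi, e2 i hi, haak ⟨i, hi⟩]
          exact (pt_lt m a v ⟨i, hi⟩).symm
        · rw [sh, if_neg hi, pt_ge m _ v (by omega), e5 _ (by omega), hv i (by omega)]
      rw [h6]
      exact (hD a).2 ha
    · intro k hk
      rw [Finset.mem_range] at hk
      show w' k * w' (m + 1 + k) = w' (2 * m + 1 + k)
      rw [e1 k hk, e2 k hk, e3 k hk]
    · intro k hk
      rw [Finset.mem_range] at hk
      show w' (3 * m + 1 + k) + w' (2 * m + 1 + k) = w' (3 * m + 1 + k + 1)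
      rw [e4 k hk.le, e3 k hk, show 3 * m + 1 + k + 1 = 3 * m + 1 + (k + 1) by omega,
        e4 (k + 1) (by omega), Finset.sum_range_succ]
    · show w' (3 * m + 1) + w' (3 * m + 1) = w' (3 * m + 1)
      have := e4 0 (by omega)
      rw [Nat.add_zero] at this
      rw [this]
      simp
    · show ¬ HH (w' m) p (w' (4 * m + 1))
      rw [e0, ht, hRES]
      have h8 := e4 m le_rfl
      rw [show 3 * m + 1 + m = 4 * m + 1 by omega] at h8
      rw [h8, ← hsum a (fun k => W k * aa k) fun k => by rw [hb k, haak k]]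
      exact hab

/-- the annihilator of a definable family of sets -/
theorem perp_def (hRES : S_RES) (P : Set (LaurentSeries (ZMod p))) (φ : Fm) (m : ℕ) :
    ∃ ψ : Fm, ∀ (v : ℕ → LaurentSeries (ZMod p)) (D : Set (Fin m → LaurentSeries (ZMod p))),
      (∀ a, Sat P φ (pt m a v) ↔ a ∈ D) →
      ∀ b, Sat P ψ (pt m b (par p m v)) ↔ b ∈ {b | ∀ a ∈ D, pr b a = 0} := by
  obtain ⟨ψ, hψ⟩ := (isDef_Bad (O := P) p m (D := {w | Sat P φ w}) ⟨φ, fun w => Iff.rfl⟩).compl
  refine ⟨ψ, fun v D hD b => ?_⟩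
  rw [hψ]
  show pt m b (par p m v) ∉ Bad p m {w | Sat P φ w} ↔ _
  rw [mem_Bad hRES φ m v D hD b]
  push Not
  rfl

open Pool.Agent.Y410.UF in
theorem w_le_iff {c : LaurentSeries (ZMod p)} (hc : c ≠ 0) :
    ∃ r : ℤ, ∀ x : LaurentSeries (ZMod p), w x ≤ w c ↔ ∀ n < r, x.coeff n = 0 := by
  have hwc : w c ≠ 0 := (Valuation.ne_zero_iff _).2 hc
  refine ⟨-WithZero.log (w c), fun x => ?_⟩
  rw [w, LaurentSeries.valuation_le_iff_coeff_lt_log_eq_zero _ hwc]

/-- **Relatively dense sets.** -/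
theorem main (hRES : S_RES) (hVAL : S_VAL) (P : Set (LaurentSeries (ZMod p)))
    (huni : ∀ φ : Fm, ∃ N : ℕ, ∀ v, (DefP P φ v).Finite → (DefP P φ v).ncard ≤ N)
    (φ : Fm) (m : ℕ) : ∃ N : ℕ, ∀ (v : ℕ → LaurentSeries (ZMod p))
      (D : Set (Fin m → LaurentSeries (ZMod p))), (∀ a, Sat P φ (pt m a v) ↔ a ∈ D) →
      (∃ r : ℤ, ∀ x, ∃ y ∈ AddSubgroup.closure D, Low r (x - y)) →
      ∃ H : AddSubgroup (Fin m → LaurentSeries (ZMod p)), H.index ≠ 0 ∧ H.index ≤ N ∧
        (∃ r : ℤ, ∀ x, Low r x → x ∈ H) ∧ AddSubgroup.closure D ≤ H ∧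
        ∀ x ∈ H, ∀ r : ℤ, ∃ y ∈ AddSubgroup.closure D, Low r (x - y) := by
  classical
  obtain ⟨ψ, hψ⟩ := perp_def hRES P φ m
  obtain ⟨N, hN⟩ := isolated hVAL p P huni ψ m
  refine ⟨p ^ N, fun v D hD ⟨r, hr⟩ => ?_⟩
  obtain ⟨h1, h2⟩ := hN (par p m v) _ (hψ v D hD)
  have hall : {b : Fin m → LaurentSeries (ZMod p) | ∀ a ∈ D, pr b a = 0} ⊆
      {a | a ∈ {b : Fin m → LaurentSeries (ZMod p) | ∀ a ∈ D, pr b a = 0} ∧
        ∃ c : LaurentSeries (ZMod p), c ≠ 0 ∧
          ∀ a' ∈ {b : Fin m → LaurentSeries (ZMod p) | ∀ a ∈ D, pr b a = 0},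
        (∀ k, Pool.Agent.Y410.UF.w (a' k - a k) ≤ Pool.Agent.Y410.UF.w c) → a' = a} := by
    intro b hb
    have hc0 : (HahnSeries.single (1 - r) (1 : ZMod p) : LaurentSeries (ZMod p)) ≠ 0 :=
      HahnSeries.single_ne_zero one_ne_zero
    obtain ⟨s, hs⟩ := w_le_iff hc0
    have hsr : 1 - r ≤ s := by
      by_contra hcon
      have h3 := (hs (HahnSeries.single s (1 : ZMod p))).2 fun n hn => by
        rw [HahnSeries.coeff_single_of_ne (by omega)]
      have hs0 : (HahnSeries.single s (1 : ZMod p) : LaurentSeries (ZMod p)) ≠ 0 :=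
        HahnSeries.single_ne_zero one_ne_zero
      have h4 : Pool.Agent.Y410.UF.w (HahnSeries.single s (1 : ZMod p)) =
          WithZero.exp (-s) := LaurentSeries.valuation_single_zpow _ _
      have h5 : Pool.Agent.Y410.UF.w (HahnSeries.single (1 - r) (1 : ZMod p)) =
          WithZero.exp (-(1 - r)) := LaurentSeries.valuation_single_zpow _ _
      rw [h4, h5, WithZero.exp_le_exp] at h3
      omega
    refine ⟨hb, _, hc0, fun a' ha' hn => ?_⟩
    have h3 : a' - b = 0 := by
      refine perp_isolated D r hr (a' - b) (fun a ha => ?_) fun k n hn' => ?_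
      · rw [sub_eq_add_neg, pr_add_left, pr_neg_left, ha' a ha, hb a ha, neg_zero, add_zero]
      · exact (hs _).1 (hn k) n (by omega)
    exact sub_eq_zero.1 h3
  have hfin := h1.subset hall
  have hcard : hfin.toFinset.card ≤ N := by
    rw [← Set.ncard_eq_toFinset_card _ hfin]
    exact (Set.ncard_le_ncard hall h1).trans h2
  obtain ⟨H, hH1, hH2, hH3, hH4⟩ := index_le hfin.toFinset
  refine ⟨H, hH2, hH3.trans (Nat.pow_le_pow_right (Fact.out (p := p.Prime)).pos hcard), hH4,
    ?_, fun x hx s => ?_⟩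
  · rw [AddSubgroup.closure_le]
    intro a ha
    rw [SetLike.mem_coe, hH1]
    intro b hb
    rw [Set.Finite.mem_toFinset] at hb
    exact hb a ha
  · refine dense_biperp D x (fun b hb => ?_) s
    exact (hH1 x).1 hx b (by rw [Set.Finite.mem_toFinset]; exact hb)

end Pool.Agent.Q52.DK
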